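import Pool.Agent.N675.FM.Stm

/-!
# FM/SPL (project of helper675): splitting of a box into residue classes
-/

set_option autoImplicit false

namespace Pool.Agent.N803.FM

open Finset Pool.Agent.N675.FM

/-- one coordinate -/
theorem spl_one (Q R : ℕ) (hQ : 0 < Q) (hR : 0 < R) (i N : ℕ) (hN : 2 ^ i * (4 * Q * R + 2) ≤ N)
    (u : ℤ) (B : ℕ) (h1 : 2 ^ i * |u| ≤ (R : ℤ) * N) (h2 : N ≤ R * 2 ^ i * B)
    (h3 : 2 ^ i * B ≤ R * N) (r : Fin Q) : ∃ (u' : ℤ) (B' : ℕ),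
    (2 ^ i * |u'| ≤ ((2 * Q * R + 2 * R + 1 : ℕ) : ℤ) * N ∧
      N ≤ (2 * Q * R + 2 * R + 1) * 2 ^ i * B' ∧ 2 ^ i * B' ≤ (2 * Q * R + 2 * R + 1) * N) ∧
    B' ≤ 2 * B ∧ ∀ z : ℤ, (u' < z ∧ z ≤ u' + B') ↔
      (u < (Q : ℤ) * z + ((r : ℕ) : ℤ) ∧ (Q : ℤ) * z + ((r : ℕ) : ℤ) ≤ u + B) := by
  have hQ' : (0 : ℤ) < Q := by exact_mod_cast hQ
  have hr : ((r : ℕ) : ℤ) < Q := by exact_mod_cast r.2
  have hr0 : (0 : ℤ) ≤ ((r : ℕ) : ℤ) := Int.natCast_nonneg _
  generalize ((r : ℕ) : ℤ) = ρ at hr hr0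
  have hp : (0 : ℕ) < 2 ^ i := by positivity
  have hB4 : 4 * Q ≤ B := by
    have h4 : R * 2 ^ i * (4 * Q) ≤ R * 2 ^ i * B := by
      calc R * 2 ^ i * (4 * Q) = 2 ^ i * (4 * Q * R) := by ring
        _ ≤ 2 ^ i * (4 * Q * R + 2) := Nat.mul_le_mul_left _ (by omega)
        _ ≤ N := hN
        _ ≤ _ := h2
    exact Nat.le_of_mul_le_mul_left h4 (by positivity)
  obtain ⟨u', hu'⟩ : ∃ u' : ℤ, u' = (u - ρ) / Q := ⟨_, rfl⟩
  obtain ⟨e, he⟩ : ∃ e : ℤ, e = (u + B - ρ) / Q := ⟨_, rfl⟩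
  have hB0 : (0 : ℤ) ≤ B := Int.natCast_nonneg _
  have a1 : u' * Q ≤ u - ρ := by rw [hu']; exact Int.ediv_mul_le _ hQ'.ne'
  have a2 : u - ρ < (u' + 1) * Q := by rw [hu']; exact Int.lt_ediv_add_one_mul_self _ hQ'
  have b1 : e * Q ≤ u + B - ρ := by rw [he]; exact Int.ediv_mul_le _ hQ'.ne'
  have b2 : u + B - ρ < (e + 1) * Q := by rw [he]; exact Int.lt_ediv_add_one_mul_self _ hQ'
  have hue : u' ≤ e := by
    rw [hu', he]
    exact Int.ediv_le_ediv hQ' (by linarith)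
  have hcast : (((e - u').toNat : ℕ) : ℤ) = e - u' := Int.toNat_of_nonneg (by linarith)
  generalize (e - u').toNat = B' at hcast
  have hBQ1 : (B' : ℤ) * Q ≤ B + Q - 1 := by
    rw [hcast]
    linarith [sub_mul e u' (Q : ℤ), add_mul u' 1 (Q : ℤ)]
  have hBQ2 : (B : ℤ) - Q + 1 ≤ B' * Q := by
    rw [hcast]
    linarith [sub_mul e u' (Q : ℤ), add_mul e 1 (Q : ℤ)]
  have hB4' : (4 : ℤ) * Q ≤ B := by exact_mod_cast hB4
  have hQ1 : (1 : ℤ) ≤ Q := by omega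
  have hB2 : B' ≤ 2 * B := by
    have h5 : (B' : ℤ) * Q ≤ (2 * B) * Q := by nlinarith
    have h6 : (B' : ℤ) ≤ 2 * B := le_of_mul_le_mul_right h5 hQ'
    exact_mod_cast h6
  refine ⟨u', B', ⟨?_, ?_, ?_⟩, hB2, fun z => ?_⟩
  · have h5 : |u'| ≤ |u| + 2 := by
      rw [abs_le]
      have hu1 := neg_abs_le u
      have hu2 := le_abs_self u
      constructor
      · by_contra hcon
        push Not at hcon
        have h6 : u' + 1 ≤ -(|u| + 2) := by omega
        have h7 : (u' + 1) * Q ≤ -(|u| + 2) * Q := mul_le_mul_of_nonneg_right h6 hQ'.le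
        have h8 : 0 ≤ |u| := abs_nonneg u
        nlinarith
      · by_contra hcon
        push Not at hcon
        have h6 : |u| + 3 ≤ u' := by omega
        have h7 : (|u| + 3) * Q ≤ u' * Q := mul_le_mul_of_nonneg_right h6 hQ'.le
        have h8 : 0 ≤ |u| := abs_nonneg u
        nlinarith
    have h6 : (2 : ℤ) ^ i * |u'| ≤ 2 ^ i * |u| + 2 ^ i * 2 := by
      rw [← mul_add]
      exact mul_le_mul_of_nonneg_left h5 (by positivity)
    have h7 : (2 : ℤ) ^ i * 2 ≤ N := by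
      have h8 : 2 ^ i * 2 ≤ N := (Nat.mul_le_mul_left _ (by omega)).trans hN
      exact_mod_cast h8
    have h8 : (0 : ℤ) ≤ N := Int.natCast_nonneg _
    have h9 : (0 : ℤ) ≤ (R : ℤ) * N := by positivity
    have h10 : (0 : ℤ) ≤ (Q : ℤ) * R * N := by positivity
    push_cast
    nlinarith
  · have h5 : (B : ℤ) ≤ 2 * Q * B' := by nlinarith
    have h6 : B ≤ 2 * Q * B' := by exact_mod_cast h5
    calc N ≤ R * 2 ^ i * B := h2
      _ ≤ R * 2 ^ i * (2 * Q * B') := Nat.mul_le_mul_left _ h6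
      _ = (2 * Q * R) * 2 ^ i * B' := by ring
      _ ≤ (2 * Q * R + 2 * R + 1) * 2 ^ i * B' := by
        apply Nat.mul_le_mul_right
        apply Nat.mul_le_mul_right
        omega
  · calc 2 ^ i * B' ≤ 2 ^ i * (2 * B) := Nat.mul_le_mul_left _ hB2
      _ = 2 * (2 ^ i * B) := by ring
      _ ≤ 2 * (R * N) := Nat.mul_le_mul_left _ h3
      _ = (2 * R) * N := by ring
      _ ≤ (2 * Q * R + 2 * R + 1) * N := Nat.mul_le_mul_right _ (by omega)
  · have hz : u' + (B' : ℤ) = e := by rw [hcast]; ring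
    rw [hz, hu', he, Int.ediv_lt_iff_lt_mul hQ', Int.le_ediv_iff_mul_le hQ']
    constructor
    · rintro ⟨c1, c2⟩
      constructor <;> nlinarith
    · rintro ⟨c1, c2⟩
      constructor <;> nlinarith

theorem t_spl : S_SPL := by
  intro n Q R hQ hR
  refine ⟨2 * Q * R + 2 * R + 1, by omega, fun i => ⟨2 ^ i * (4 * Q * R + 2),
    fun N hN u B hS r => ?_⟩⟩
  choose u' B' hS' hB' hz using fun s => spl_one Q R hQ hR i N hN (u s) (B s) (hS s).1 (hS s).2.1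
    (hS s).2.2 (r s)
  have hQ' : (0 : ℤ) < Q := by exact_mod_cast hQ
  refine ⟨u', B', hS', hB', fun f => ?_⟩
  refine Finset.sum_nbij' (fun y s => y s / (Q : ℤ)) (fun z s => (Q : ℤ) * z s + ((r s : ℕ) : ℤ))
    ?_ ?_ ?_ ?_ ?_
  · intro y hy
    rw [Finset.mem_filter, bx, Fintype.mem_piFinset] at hy
    rw [bx, Fintype.mem_piFinset]
    intro s
    rw [Finset.mem_Ioc, hz]
    have h1 := Finset.mem_Ioc.1 (hy.1 s)
    have h2 := hy.2 s
    have h3 : (Q : ℤ) * (y s / Q) + ((r s : ℕ) : ℤ) = y s := by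
      rw [← h2]
      exact Int.mul_ediv_add_emod (y s) Q
    rw [h3]
    exact h1
  · intro z hz'
    rw [bx, Fintype.mem_piFinset] at hz'
    rw [Finset.mem_filter, bx, Fintype.mem_piFinset]
    refine ⟨fun s => ?_, fun s => ?_⟩
    · rw [Finset.mem_Ioc]
      exact (hz s (z s)).1 (Finset.mem_Ioc.1 (hz' s))
    · rw [Int.mul_add_emod_self_left]
      exact Int.emod_eq_of_lt (Int.natCast_nonneg _) (by exact_mod_cast (r s).2)
  · intro y hy
    rw [Finset.mem_filter] at hy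
    funext s
    dsimp only
    rw [← hy.2 s]
    exact Int.mul_ediv_add_emod (y s) Q
  · intro z _
    funext s
    dsimp only
    rw [add_comm, Int.add_mul_ediv_left _ _ hQ'.ne', Int.ediv_eq_zero_of_lt
      (Int.natCast_nonneg _) (by exact_mod_cast (r s).2), zero_add]
  · intro y hy
    rw [Finset.mem_filter] at hy
    congr 1
    funext s
    dsimp only
    rw [← hy.2 s]
    exact (Int.mul_ediv_add_emod (y s) Q).symm

end Pool.Agent.N803.FM
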